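import Pool.Agent.Helper40.MR.Defs

/-!
# Module PB: parameters, part 2
-/

open Finset MeasureTheory Filter
open scoped BigOperators Nat

namespace Pool.Agent.Helper40.MR

/-- powers of the logarithm are small -/
theorem pb_ev (n : ℕ) (c : ℝ) (hc : 0 < c) : ∀ᶠ x : ℝ in atTop, (Real.log x) ^ n ≤ c * x := by
  have h := (Real.isLittleO_pow_log_id_atTop (n := n)).def hc
  filter_upwards [h, eventually_ge_atTop (0 : ℝ)] with x hx h0
  have h1 : (Real.log x) ^ n ≤ ‖(Real.log x) ^ n‖ := le_abs_self _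
  have h2 : ‖id x‖ = x := by
    show |x| = x
    exact abs_of_nonneg h0
  rw [h2] at hx
  exact h1.trans hx

theorem pb_all (K η y θ C : ℝ) (hη : 0 < η) (hθ : 0 < θ) (hC : 0 < C) :
    ∀ᶠ x : ℝ in atTop, K * y ≤ θ * x ∧ (Real.log x) ^ 80 ≤ θ * x ∧ (Real.log x) ^ 40 + 1 ≤ x ∧
      C * (Real.exp (η * y / 4) * (Real.log x) ^ 120 + 1) ≤ Real.exp (η * x / 3) ∧
      4 * η * (Real.log x) ^ 80 ≤ η * x / 3 ∧
      8 * x / Real.log x + 4 * Real.log x ≤ η * x / 3 ∧
      3 ≤ Real.log x ∧ y < (Real.log x) ^ 2 ∧ 0 < x := by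
  have e1 : ∀ᶠ x : ℝ in atTop, K * y / θ ≤ x := eventually_ge_atTop _
  have e2 := pb_ev 80 θ hθ
  have e3 := pb_ev 40 (1 / 2) (by norm_num)
  have e4 : ∀ᶠ x : ℝ in atTop, (Real.log x) ^ 120 ≤
      (η / (6 * (C * Real.exp (η * y / 4)))) * x := pb_ev 120 _ (by positivity)
  have e4' : ∀ᶠ x : ℝ in atTop, 6 * C / η ≤ x := eventually_ge_atTop _
  have e5 := pb_ev 80 (1 / 12) (by norm_num)
  have e6 : ∀ᶠ x : ℝ in atTop, 48 / η ≤ Real.log x :=
    Real.tendsto_log_atTop.eventually_ge_atTop _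
  have e6' := pb_ev 1 (η / 24) (by positivity)
  have e7 : ∀ᶠ x : ℝ in atTop, 3 + |y| ≤ Real.log x :=
    Real.tendsto_log_atTop.eventually_ge_atTop _
  filter_upwards [e1, e2, e3, e4, e4', e5, e6, e6', e7, eventually_ge_atTop (2 : ℝ)] with
    x h1 h2 h3 h4 h4' h5 h6 h6' h7 h8
  have hy0 := abs_nonneg y
  have hl3 : 3 ≤ Real.log x := by linarith
  have hx0 : 0 < x := by linarith
  refine ⟨?_, h2, by linarith, ?_, ?_, ?_, hl3, ?_, hx0⟩
  · rw [div_le_iff₀ hθ] at h1
    linarith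
  · have hE : 0 < Real.exp (η * y / 4) := Real.exp_pos _
    have h9 : C * Real.exp (η * y / 4) * (Real.log x) ^ 120 ≤ η * x / 6 := by
      calc C * Real.exp (η * y / 4) * (Real.log x) ^ 120
          ≤ C * Real.exp (η * y / 4) * ((η / (6 * (C * Real.exp (η * y / 4)))) * x) := by
            gcongr
        _ = η * x / 6 := by
            field_simp
    have h10 : C ≤ η * x / 6 := by
      rw [div_le_iff₀ hη] at h4'
      linarith
    have h11 := Real.add_one_le_exp (η * x / 3)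
    have h12 : C * (Real.exp (η * y / 4) * (Real.log x) ^ 120 + 1) =
        C * Real.exp (η * y / 4) * (Real.log x) ^ 120 + C := by ring
    rw [h12]
    linarith
  · have := mul_le_mul_of_nonneg_left h5 (by positivity : (0 : ℝ) ≤ 4 * η)
    linarith
  · have h9 : 8 * x / Real.log x ≤ η * x / 6 := by
      rw [div_le_iff₀ (by linarith)]
      rw [div_le_iff₀ hη] at h6
      have := mul_le_mul_of_nonneg_left h6 hx0.le
      linarith
    rw [pow_one] at h6'
    linarith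
  · have h9 : y ≤ |y| := le_abs_self y
    nlinarith

theorem st_PB : ST_PB := by
  intro K η y θ C hK hη hη' hy hθ hC
  have hev := Real.tendsto_log_atTop.eventually (pb_all K η y θ C hη hθ hC)
  obtain ⟨Z₀, hZ₀⟩ := eventually_atTop.1 hev
  refine ⟨max Z₀ 3, fun Z hZ => ?_⟩
  obtain ⟨F1, F2, F3, F4, F5, F6, F7, F8, F9⟩ := hZ₀ Z (le_trans (le_max_left _ _) hZ)
  have hZ3 : 3 ≤ Z := le_trans (le_max_right _ _) hZ
  have hZ0 : 0 < Z := by linarith
  set x := Real.log Z with hx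
  set l := Real.log x with hl
  have hl0 : 0 < l := by linarith
  have hy1 : 1 ≤ y := by linarith
  -- the set is nonempty
  have hne : ({j : ℕ | l ^ 2 ≤ y ^ (20 ^ j)}).Nonempty := by
    obtain ⟨n, hn⟩ := pow_unbounded_of_one_lt (l ^ 2) (by norm_num : (1 : ℝ) < 2)
    refine ⟨n, ?_⟩
    show l ^ 2 ≤ y ^ (20 ^ n)
    calc l ^ 2 ≤ (2 : ℝ) ^ n := hn.le
      _ ≤ (2 : ℝ) ^ (20 ^ n) := pow_le_pow_right₀ (by norm_num) (Nat.lt_pow_self (by norm_num)).le
      _ ≤ y ^ (20 ^ n) := pow_le_pow_left₀ (by norm_num) hy _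
  have hJmem : l ^ 2 ≤ y ^ (20 ^ (Jz y Z)) := Nat.sInf_mem hne
  have hJ0 : Jz y Z ≠ 0 := by
    intro h0
    rw [h0, pow_zero, pow_one] at hJmem
    linarith
  obtain ⟨m, hm⟩ := Nat.exists_eq_succ_of_ne_zero hJ0
  have hmlt : y ^ (20 ^ m) < l ^ 2 := by
    have h1 : m ∉ {j : ℕ | l ^ 2 ≤ y ^ (20 ^ j)} := by
      apply Nat.notMem_of_lt_sInf
      show m < Jz y Z
      omega
    exact not_le.1 h1
  set J := Jz y Z with hJ
  set W := y ^ (20 ^ J) with hW
  have hW1 : 1 ≤ W := one_le_pow₀ hy1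
  have hW0 : 0 < W := by linarith
  have hWl : W ≤ l ^ 40 := by
    have h1 : W = (y ^ (20 ^ m)) ^ 20 := by
      rw [hW, hm, ← pow_mul, pow_succ]
    rw [h1]
    calc (y ^ (20 ^ m)) ^ 20 ≤ (l ^ 2) ^ 20 :=
          pow_le_pow_left₀ (by positivity) hmlt.le _
      _ = l ^ 40 := by rw [← pow_mul]
  have h2J : (2 : ℝ) ^ J ≤ W := by
    calc (2 : ℝ) ^ J ≤ (2 : ℝ) ^ (20 ^ J) :=
          pow_le_pow_right₀ (by norm_num) (Nat.lt_pow_self (by norm_num)).le
      _ ≤ y ^ (20 ^ J) := pow_le_pow_left₀ (by norm_num) hy _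
  have hJW : (J : ℝ) ≤ W := by
    refine le_trans ?_ h2J
    exact_mod_cast (Nat.lt_pow_self (by norm_num : 1 < 2)).le
  have hlogP : Real.log (Psc y J) = W := by
    rw [Psc, Real.log_exp]
  have hQJ : Qsc K y J = Real.exp (W ^ 2) := by
    rw [Qsc, if_neg hJ0, hW, ← pow_mul, mul_comm 2]
  have hlogQ : Real.log (Qsc K y J) = W ^ 2 := by
    rw [hQJ, Real.log_exp]
  have hW2 : W ^ 2 ≤ l ^ 80 := by
    calc W ^ 2 ≤ (l ^ 40) ^ 2 := pow_le_pow_left₀ hW0.le hWl _
      _ = l ^ 80 := by rw [← pow_mul]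
  have hZθ : Z ^ θ = Real.exp (θ * x) := by
    rw [Real.rpow_def_of_pos hZ0, mul_comm]
  refine ⟨?_, ?_, ?_, ?_⟩
  · rw [hlogP]
    exact hJmem
  · intro j hj
    rw [hZθ]
    unfold Qsc
    split_ifs with h0
    · exact Real.exp_le_exp.2 F1
    · apply Real.exp_le_exp.2
      calc y ^ (2 * 20 ^ j) ≤ y ^ (2 * 20 ^ J) :=
            pow_le_pow_right₀ hy1 (Nat.mul_le_mul_left _ (Nat.pow_le_pow_right (by norm_num) hj))
        _ = W ^ 2 := by rw [hW, ← pow_mul, mul_comm 2]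
        _ ≤ θ * x := hW2.trans F2
  · linarith
  · rw [hlogQ, hlogP]
    have hA : Asc η J ≤ 2 * η := by
      unfold Asc
      have h1 : (0 : ℝ) ≤ (1 / 2) ^ J := by positivity
      nlinarith
    have hA0 : 0 ≤ Asc η J := by
      unfold Asc
      have h1 : ((1 : ℝ) / 2) ^ J ≤ 1 := pow_le_one₀ (by norm_num) (by norm_num)
      apply mul_nonneg hη.le
      linarith
    -- first factor
    have h1 : C * (Hsc η y J * W ^ 2 + 1) ≤ Real.exp (η * x / 3) := by
      refine le_trans ?_ F4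
      apply mul_le_mul_of_nonneg_left _ hC.le
      have h2 : Hsc η y J * W ^ 2 ≤ Real.exp (η * y / 4) * l ^ 120 := by
        unfold Hsc
        calc 2 ^ J * Real.exp (η * y / 4) * W ^ 2 ≤ l ^ 40 * Real.exp (η * y / 4) * l ^ 80 := by
              have : (2 : ℝ) ^ J ≤ l ^ 40 := h2J.trans hWl
              gcongr
          _ = Real.exp (η * y / 4) * l ^ 120 := by ring
      linarith
    -- second factor
    have h3 : (4 * x / W + 2) * (l + 3) ≤ η * x / 3 := by
      have h4 : 4 * x / W ≤ 4 * x / l ^ 2 := by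
        apply div_le_div_of_nonneg_left (by linarith) (by positivity) hJmem
      have h5 : l + 3 ≤ 2 * l := by linarith
      calc (4 * x / W + 2) * (l + 3) ≤ (4 * x / l ^ 2 + 2) * (2 * l) := by
            apply mul_le_mul (by linarith) h5 (by linarith)
            positivity
        _ = 8 * x / l + 4 * l := by
            field_simp
            ring
        _ ≤ η * x / 3 := F6
    have h6 : 2 * Asc η J * (x + W ^ 2) ≤ 4 * η * x + η * x / 3 := by
      calc 2 * Asc η J * (x + W ^ 2) ≤ 2 * (2 * η) * (x + l ^ 80) := by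
            gcongr
        _ = 4 * η * x + 4 * η * l ^ 80 := by ring
        _ ≤ 4 * η * x + η * x / 3 := by linarith
    have hZ5 : Z ^ (5 * η) = Real.exp (5 * η * x) := by
      rw [Real.rpow_def_of_pos hZ0, mul_comm]
    rw [hZ5]
    calc C * (Hsc η y J * W ^ 2 + 1) *
        Real.exp (2 * Asc η J * (x + W ^ 2) + (4 * x / W + 2) * (l + 3))
        ≤ Real.exp (η * x / 3) * Real.exp (4 * η * x + η * x / 3 + η * x / 3) := by
          apply mul_le_mul h1 (Real.exp_le_exp.2 (by linarith)) (Real.exp_pos _).le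
            (Real.exp_pos _).le
      _ = Real.exp (5 * η * x) := by
          rw [← Real.exp_add]
          congr 1
          ring

end Pool.Agent.Helper40.MR
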