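import Pool.Agent.Helper40.MR.Defs

/-!
# Module PL: from mean squares of Dirichlet polynomials to short intervals
-/

open Finset MeasureTheory Filter
open scoped BigOperators Nat

namespace Pool.Agent.Helper40.MR

theorem pl_nit_cont (n : ℕ) : Continuous (fun t => nit n t) := by
  unfold nit
  fun_prop

theorem pl_nit_norm (n : ℕ) (t : ℝ) : ‖nit n t‖ = 1 := by
  unfold nit
  rw [← Complex.ofReal_neg, Complex.norm_exp_ofReal_mul_I]

theorem pl_DP_cont (s : Finset ℕ) (c : ℕ → ℂ) : Continuous (fun t => DP s c t) := by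
  unfold DP
  exact continuous_finsetSum _ (fun n _ => continuous_const.mul (pl_nit_cont n))

theorem pl_DP_bound (s : Finset ℕ) (c : ℕ → ℂ) (t : ℝ) :
    ‖DP s c t‖ ≤ ∑ n ∈ s, ‖c n / n‖ := by
  unfold DP
  refine (norm_sum_le _ _).trans ?_
  apply Finset.sum_le_sum
  intro n _
  rw [norm_mul, pl_nit_norm, mul_one]

theorem pl_mem {X : ℝ} (hX : 1 ≤ X) {n : ℕ} (hn : n ∈ IocN X (2 * X)) :
    X < n ∧ (n : ℝ) ≤ 2 * X ∧ 1 ≤ n := by
  unfold IocN at hn
  rw [Finset.mem_Ioc] at hn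
  have h1 : X < n := (Nat.floor_lt (by linarith)).1 hn.1
  have h2 : (n : ℝ) ≤ 2 * X := (Nat.le_floor_iff (by linarith)).1 hn.2
  refine ⟨h1, h2, ?_⟩
  have : (0 : ℝ) < n := by linarith
  exact_mod_cast this

theorem pl_card {X : ℝ} (hX : 1 ≤ X) : ((IocN X (2 * X)).card : ℝ) ≤ 2 * X := by
  unfold IocN
  rw [Nat.card_Ioc]
  have h1 : ⌊X⌋₊ ≤ ⌊2 * X⌋₊ := Nat.floor_mono (by linarith)
  rw [Nat.cast_sub h1]
  have h2 : (⌊2 * X⌋₊ : ℝ) ≤ 2 * X := Nat.floor_le (by linarith)
  have h3 : (0 : ℝ) ≤ ⌊X⌋₊ := Nat.cast_nonneg _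
  linarith

theorem pl_mv {C : ℝ} (hC : 0 < C) (h : ∀ (N : ℕ) (T : ℝ) (c : ℕ → ℂ), 1 ≤ T →
    ∫ t in (-T)..T, ‖∑ n ∈ Icc 1 N, c n * nit n t‖ ^ 2 ≤ C * (T + N) * ∑ n ∈ Icc 1 N, ‖c n‖ ^ 2)
    (X T : ℝ) (a : ℕ → ℂ) (ha : ∀ n, ‖a n‖ ≤ 1) (hX : 1 ≤ X) (hT : 1 ≤ T) :
    ∫ t in (-T)..T, ‖DP (IocN X (2 * X)) a t‖ ^ 2 ≤ 4 * C * (T / X + 1) := by
  have hX0 : 0 < X := by linarith
  have hsub : IocN X (2 * X) ⊆ Icc 1 ⌊2 * X⌋₊ := by
    intro n hn
    have h1 := pl_mem hX hn
    rw [Finset.mem_Icc]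
    exact ⟨h1.2.2, Nat.le_floor h1.2.1⟩
  have h1 := h ⌊2 * X⌋₊ T (fun n => if n ∈ IocN X (2 * X) then a n / n else 0) hT
  have h2 : ∀ t, ∑ n ∈ Icc 1 ⌊2 * X⌋₊,
      (if n ∈ IocN X (2 * X) then a n / (n : ℂ) else 0) * nit n t =
      DP (IocN X (2 * X)) a t := by
    intro t
    unfold DP
    rw [← Finset.sum_subset hsub (fun n _ hn => by rw [if_neg hn, zero_mul])]
    exact Finset.sum_congr rfl (fun n hn => by rw [if_pos hn])
  simp only [h2] at h1
  refine h1.trans ?_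
  have h3 : ∑ n ∈ Icc 1 ⌊2 * X⌋₊, ‖(if n ∈ IocN X (2 * X) then a n / (n : ℂ) else 0)‖ ^ 2 ≤
      2 / X := by
    rw [← Finset.sum_subset hsub (fun n _ hn => by
      rw [if_neg hn, norm_zero, zero_pow two_ne_zero])]
    calc ∑ n ∈ IocN X (2 * X), ‖(if n ∈ IocN X (2 * X) then a n / (n : ℂ) else 0)‖ ^ 2
        ≤ ∑ n ∈ IocN X (2 * X), 1 / X ^ 2 := by
          apply Finset.sum_le_sum
          intro n hn
          have h4 := pl_mem hX hn
          rw [if_pos hn, norm_div, Complex.norm_natCast, div_pow]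
          have h5 : ‖a n‖ ^ 2 ≤ 1 := pow_le_one₀ (norm_nonneg _) (ha n)
          have h6 : X ^ 2 ≤ (n : ℝ) ^ 2 := pow_le_pow_left₀ hX0.le h4.1.le 2
          exact div_le_div₀ (by norm_num) h5 (by positivity) h6
      _ = (IocN X (2 * X)).card * (1 / X ^ 2) := by
          rw [Finset.sum_const, nsmul_eq_mul]
      _ ≤ 2 * X * (1 / X ^ 2) := by
          have := pl_card hX
          gcongr
      _ = 2 / X := by
          field_simp
  have h4 : (⌊2 * X⌋₊ : ℝ) ≤ 2 * X := Nat.floor_le (by linarith)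
  calc C * (T + ⌊2 * X⌋₊) *
        ∑ n ∈ Icc 1 ⌊2 * X⌋₊, ‖(if n ∈ IocN X (2 * X) then a n / (n : ℂ) else 0)‖ ^ 2
      ≤ C * (T + 2 * X) * (2 / X) := by
        gcongr
    _ = C * (2 * (T / X) + 4) := by
        field_simp
        ring
    _ ≤ 4 * C * (T / X + 1) := by
        have h5 : 0 ≤ T / X := by positivity
        nlinarith

theorem pl_w_cont (δ : ℝ) : Continuous (fun t : ℝ => min (δ ^ 2) (1 / (1 + t ^ 2))) := by
  apply Continuous.min continuous_const
  apply Continuous.div continuous_const (by fun_prop)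
  intro t
  positivity

/-- dyadic decomposition -/
theorem pl_dyad (f : ℝ → ℝ) (hf : Continuous f) (hf0 : ∀ t, 0 ≤ f t) (δ : ℝ) (hδ : 0 < δ)
    (k : ℕ) :
    ∫ t in (-(2 ^ k / δ))..(2 ^ k / δ), f t * min (δ ^ 2) (1 / (1 + t ^ 2)) ≤
      ∑ i ∈ range (k + 1), 4 * δ ^ 2 * (1 / 4) ^ i * ∫ t in (-(2 ^ i / δ))..(2 ^ i / δ), f t := by
  have hw := pl_w_cont δ
  have hfw : Continuous (fun t => f t * min (δ ^ 2) (1 / (1 + t ^ 2))) := hf.mul hw
  have hw0 : ∀ t : ℝ, 0 ≤ min (δ ^ 2) (1 / (1 + t ^ 2)) := fun t => by positivity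
  -- general comparison on an interval
  have hcmp : ∀ (a b c : ℝ), a ≤ b → (∀ t ∈ Set.Icc a b, min (δ ^ 2) (1 / (1 + t ^ 2)) ≤ c) →
      ∫ t in a..b, f t * min (δ ^ 2) (1 / (1 + t ^ 2)) ≤ c * ∫ t in a..b, f t := by
    intro a b c hab hc
    rw [← intervalIntegral.integral_const_mul]
    apply intervalIntegral.integral_mono_on hab (hfw.intervalIntegrable _ _)
      ((continuous_const.mul hf).intervalIntegrable _ _)
    intro t ht
    show f t * min (δ ^ 2) (1 / (1 + t ^ 2)) ≤ c * f t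
    rw [mul_comm c]
    exact mul_le_mul_of_nonneg_left (hc t ht) (hf0 t)
  induction k with
  | zero =>
    simp only [zero_add, range_one, sum_singleton, pow_zero, mul_one]
    apply hcmp
    · have : 0 < 1 / δ := by positivity
      linarith
    · intro t _
      refine (min_le_left _ _).trans ?_
      nlinarith [sq_nonneg δ]
  | succ k ih =>
    rw [Finset.sum_range_succ]
    set T : ℝ := 2 ^ k / δ with hT
    have hT0 : 0 < T := by positivity
    have hT' : (2 : ℝ) ^ (k + 1) / δ = 2 * T := by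
      rw [hT, pow_succ]; ring
    rw [hT']
    have hc : ∀ t : ℝ, T ≤ |t| → min (δ ^ 2) (1 / (1 + t ^ 2)) ≤ 4 * δ ^ 2 * (1 / 4) ^ (k + 1) := by
      intro t ht
      refine (min_le_right _ _).trans ?_
      have h1 : T ^ 2 ≤ t ^ 2 := by
        rw [← sq_abs t]
        exact pow_le_pow_left₀ hT0.le ht 2
      calc 1 / (1 + t ^ 2) ≤ 1 / T ^ 2 := by
            apply div_le_div_of_nonneg_left zero_le_one (by positivity) (by linarith)
        _ = 4 * δ ^ 2 * (1 / 4) ^ (k + 1) := by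
            have h4 : ((1 : ℝ) / 4) ^ (k + 1) = 1 / (4 ^ k * 4) := by
              rw [one_div_pow, pow_succ]
            have h5 : ((2 : ℝ) ^ k) ^ 2 = 4 ^ k := by
              rw [← pow_mul, mul_comm k 2, pow_mul]
              norm_num
            rw [h4, hT, div_pow, h5]
            field_simp
    have e1 : ∫ t in (-(2 * T))..(2 * T), f t * min (δ ^ 2) (1 / (1 + t ^ 2)) =
        (∫ t in (-(2 * T))..(-T), f t * min (δ ^ 2) (1 / (1 + t ^ 2))) +
        (∫ t in (-T)..T, f t * min (δ ^ 2) (1 / (1 + t ^ 2))) +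
        ∫ t in T..(2 * T), f t * min (δ ^ 2) (1 / (1 + t ^ 2)) := by
      rw [intervalIntegral.integral_add_adjacent_intervals (hfw.intervalIntegrable _ _)
        (hfw.intervalIntegrable _ _), intervalIntegral.integral_add_adjacent_intervals
        (hfw.intervalIntegrable _ _) (hfw.intervalIntegrable _ _)]
    have e2 : ∫ t in (-(2 * T))..(2 * T), f t =
        (∫ t in (-(2 * T))..(-T), f t) + (∫ t in (-T)..T, f t) + ∫ t in T..(2 * T), f t := by
      rw [intervalIntegral.integral_add_adjacent_intervals (hf.intervalIntegrable _ _)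
        (hf.intervalIntegrable _ _), intervalIntegral.integral_add_adjacent_intervals
        (hf.intervalIntegrable _ _) (hf.intervalIntegrable _ _)]
    have e3 : 0 ≤ ∫ t in (-T)..T, f t :=
      intervalIntegral.integral_nonneg (by linarith) (fun t _ => hf0 t)
    have e4 := hcmp (-(2 * T)) (-T) (4 * δ ^ 2 * (1 / 4) ^ (k + 1)) (by linarith) (by
      intro t ht
      apply hc
      rw [abs_of_nonpos (by linarith [ht.2])]
      linarith [ht.2])
    have e5 := hcmp T (2 * T) (4 * δ ^ 2 * (1 / 4) ^ (k + 1)) (by linarith) (by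
      intro t ht
      apply hc
      exact ht.1.trans (le_abs_self t))
    rw [e1, e2]
    have e6 : 0 ≤ 4 * δ ^ 2 * (1 / 4) ^ (k + 1) * ∫ t in (-T)..T, f t :=
      mul_nonneg (by positivity) e3
    rw [mul_add, mul_add]
    linarith

/-- tail of the geometric series -/
theorem pl_tail (h : ℝ) (hh : 1 ≤ h) (k : ℕ) :
    ∑ i ∈ range k, (if (2 : ℝ) ^ i ≤ h then (0 : ℝ) else (1 / 2) ^ i) ≤ 2 / h := by
  have h0 : 0 < h := by linarith
  have key : ∀ k : ℕ, ((2 : ℝ) ^ k ≤ h →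
      ∑ i ∈ range k, (if (2 : ℝ) ^ i ≤ h then (0 : ℝ) else (1 / 2) ^ i) = 0) ∧
      (h < (2 : ℝ) ^ k →
      ∑ i ∈ range k, (if (2 : ℝ) ^ i ≤ h then (0 : ℝ) else (1 / 2) ^ i) + 2 * (1 / 2) ^ k ≤
        2 / h) := by
    intro k
    induction k with
    | zero =>
      refine ⟨fun _ => by simp, fun h1 => ?_⟩
      rw [pow_zero] at h1
      linarith
    | succ k ih =>
      have hk : (2 : ℝ) ^ (k + 1) = 2 * 2 ^ k := by ring
      have hk0 : (0 : ℝ) < 2 ^ k := by positivity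
      have hk' : ((1 : ℝ) / 2) ^ (k + 1) = 1 / 2 * (1 / 2) ^ k := by ring
      constructor
      · intro h1
        have h2 : (2 : ℝ) ^ k ≤ h := by linarith
        rw [Finset.sum_range_succ, if_pos h2, ih.1 h2, add_zero]
      · intro h1
        rw [Finset.sum_range_succ]
        by_cases h2 : (2 : ℝ) ^ k ≤ h
        · rw [if_pos h2, ih.1 h2, add_zero, zero_add]
          have h3 : ((1 : ℝ) / 2) ^ (k + 1) ≤ 1 / h := by
            rw [one_div_pow]
            exact div_le_div_of_nonneg_left zero_le_one h0 h1.le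
          calc 2 * ((1 : ℝ) / 2) ^ (k + 1) ≤ 2 * (1 / h) := by linarith
            _ = 2 / h := by ring
        · rw [if_neg h2]
          have h3 := ih.2 (not_le.1 h2)
          rw [hk']
          linarith
  by_cases h1 : (2 : ℝ) ^ k ≤ h
  · rw [(key k).1 h1]
    positivity
  · have h2 := (key k).2 (not_le.1 h1)
    have h3 : (0 : ℝ) ≤ 2 * (1 / 2) ^ k := by positivity
    linarith

theorem pl_geom (k : ℕ) : ∑ i ∈ range k, ((1 : ℝ) / 2) ^ i ≤ 2 := by
  have : ∑ i ∈ range k, ((1 : ℝ) / 2) ^ i = 2 - 2 * (1 / 2) ^ k := by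
    induction k with
    | zero => simp
    | succ k ih => rw [Finset.sum_range_succ, ih]; ring
  rw [this]
  have h3 : (0 : ℝ) ≤ 2 * (1 / 2) ^ k := by positivity
  linarith

/-- the weighted mean square -/
theorem pl_mean {C : ℝ} (hC : 0 < C) (h : ∀ (N : ℕ) (T : ℝ) (c : ℕ → ℂ), 1 ≤ T →
    ∫ t in (-T)..T, ‖∑ n ∈ Icc 1 N, c n * nit n t‖ ^ 2 ≤ C * (T + N) * ∑ n ∈ Icc 1 N, ‖c n‖ ^ 2)
    (X h₀ E B : ℝ) (a : ℕ → ℂ) (ha : ∀ n, ‖a n‖ ≤ 1) (hB : 1 ≤ B) (hBh : B ≤ h₀) (hX : h₀ ≤ X)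
    (hE : 0 ≤ E)
    (hyp : ∀ T, 1 ≤ T → T ≤ X →
      ∫ t in (-T)..T, ‖DP (IocN X (2 * X)) a t‖ ^ 2 ≤ (T * B / X + 1) * E) :
    ∫ t : ℝ, ‖DP (IocN X (2 * X)) a t‖ ^ 2 * min ((h₀ / X) ^ 2) (1 / (1 + t ^ 2)) ≤
      (16 + 64 * C) * (h₀ / X) ^ 2 * (E + 1 / h₀ ^ 2) := by
  have hh1 : 1 ≤ h₀ := hB.trans hBh
  have hX1 : 1 ≤ X := hh1.trans hX
  have hh0 : 0 < h₀ := by linarith
  have hX0 : 0 < X := by linarith
  set δ : ℝ := h₀ / X with hδ
  have hδ0 : 0 < δ := by positivity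
  have hδ1 : δ ≤ 1 := (div_le_one hX0).2 hX
  have hcont : Continuous (fun t => ‖DP (IocN X (2 * X)) a t‖ ^ 2) :=
    (pl_DP_cont _ _).norm.pow 2
  have hint : Integrable (fun t : ℝ => ‖DP (IocN X (2 * X)) a t‖ ^ 2 *
      min (δ ^ 2) (1 / (1 + t ^ 2))) := by
    have h1 : Integrable (fun t : ℝ => (∑ n ∈ IocN X (2 * X), ‖a n / n‖) ^ 2 *
        (1 + t ^ 2)⁻¹) := integrable_inv_one_add_sq.const_mul _
    apply h1.mono' (hcont.mul (pl_w_cont δ)).aestronglyMeasurable
    filter_upwards with t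
    have h2 : (0 : ℝ) ≤ min (δ ^ 2) (1 / (1 + t ^ 2)) := by positivity
    show ‖‖DP (IocN X (2 * X)) a t‖ ^ 2 * min (δ ^ 2) (1 / (1 + t ^ 2))‖ ≤ _
    rw [Real.norm_of_nonneg (mul_nonneg (by positivity) h2)]
    apply mul_le_mul _ _ h2 (by positivity)
    · exact pow_le_pow_left₀ (norm_nonneg _) (pl_DP_bound _ _ _) 2
    · rw [← one_div]
      exact min_le_right _ _
  have hlim : Tendsto (fun k : ℕ => ∫ t in (-((2 : ℝ) ^ k / δ))..((2 : ℝ) ^ k / δ),
      ‖DP (IocN X (2 * X)) a t‖ ^ 2 * min (δ ^ 2) (1 / (1 + t ^ 2))) atTop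
      (nhds (∫ t : ℝ, ‖DP (IocN X (2 * X)) a t‖ ^ 2 * min (δ ^ 2) (1 / (1 + t ^ 2)))) := by
    have h1 : Tendsto (fun k : ℕ => (2 : ℝ) ^ k / δ) atTop atTop :=
      (tendsto_pow_atTop_atTop_of_one_lt (by norm_num)).atTop_div_const hδ0
    exact intervalIntegral_tendsto_integral hint (tendsto_neg_atTop_atBot.comp h1) h1
  apply le_of_tendsto' hlim
  intro k
  refine (pl_dyad _ hcont (fun t => by positivity) δ hδ0 k).trans ?_
  have hM : ∀ i : ℕ, ∫ t in (-((2 : ℝ) ^ i / δ))..((2 : ℝ) ^ i / δ),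
      ‖DP (IocN X (2 * X)) a t‖ ^ 2 ≤
      2 * 2 ^ i * E + (if (2 : ℝ) ^ i ≤ h₀ then 0 else 8 * C * 2 ^ i / h₀) := by
    intro i
    have hi : (1 : ℝ) ≤ 2 ^ i := one_le_pow₀ (by norm_num)
    have hT1 : 1 ≤ (2 : ℝ) ^ i / δ := by
      rw [le_div_iff₀ hδ0]
      linarith
    have hTX : (2 : ℝ) ^ i / δ = 2 ^ i * X / h₀ := by
      rw [hδ]
      field_simp
    by_cases hle : (2 : ℝ) ^ i ≤ h₀
    · rw [if_pos hle, add_zero]
      have h1 : (2 : ℝ) ^ i / δ ≤ X := by
        rw [hTX, div_le_iff₀ hh0, mul_comm X]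
        exact mul_le_mul_of_nonneg_right hle hX0.le
      refine (hyp _ hT1 h1).trans ?_
      apply mul_le_mul_of_nonneg_right _ hE
      have h2 : (2 : ℝ) ^ i / δ * B / X ≤ 2 ^ i := by
        rw [hTX]
        have h3 : 2 ^ i * X / h₀ * B / X = 2 ^ i * (B / h₀) := by
          field_simp
        rw [h3]
        have h4 : B / h₀ ≤ 1 := (div_le_one hh0).2 hBh
        calc (2 : ℝ) ^ i * (B / h₀) ≤ 2 ^ i * 1 := by gcongr
          _ = 2 ^ i := mul_one _
      linarith
    · rw [if_neg hle]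
      have h1 := pl_mv hC h X ((2 : ℝ) ^ i / δ) a ha hX1 hT1
      refine h1.trans ?_
      have h2 : (2 : ℝ) ^ i / δ / X = 2 ^ i / h₀ := by
        rw [hTX]
        field_simp
      rw [h2]
      have h3 : 1 ≤ (2 : ℝ) ^ i / h₀ := by
        rw [le_div_iff₀ hh0, one_mul]
        exact (not_le.1 hle).le
      have h4 : 0 ≤ 2 * 2 ^ i * E := by positivity
      have h5 : 8 * C * 2 ^ i / h₀ = 8 * C * (2 ^ i / h₀) := by ring
      rw [h5]
      nlinarith
  calc ∑ i ∈ range (k + 1), 4 * δ ^ 2 * (1 / 4) ^ i *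
        ∫ t in (-((2 : ℝ) ^ i / δ))..((2 : ℝ) ^ i / δ), ‖DP (IocN X (2 * X)) a t‖ ^ 2
      ≤ ∑ i ∈ range (k + 1), (4 * δ ^ 2 * (2 * E) * (1 / 2) ^ i +
          4 * δ ^ 2 * (8 * C / h₀) * (if (2 : ℝ) ^ i ≤ h₀ then 0 else (1 / 2) ^ i)) := by
        apply Finset.sum_le_sum
        intro i _
        have h1 : (1 / 4 : ℝ) ^ i * 2 ^ i = (1 / 2) ^ i := by
          rw [← mul_pow]
          norm_num
        calc 4 * δ ^ 2 * (1 / 4) ^ i *
            ∫ t in (-((2 : ℝ) ^ i / δ))..((2 : ℝ) ^ i / δ), ‖DP (IocN X (2 * X)) a t‖ ^ 2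
            ≤ 4 * δ ^ 2 * (1 / 4) ^ i *
              (2 * 2 ^ i * E + (if (2 : ℝ) ^ i ≤ h₀ then 0 else 8 * C * 2 ^ i / h₀)) := by
              apply mul_le_mul_of_nonneg_left (hM i) (by positivity)
          _ = 4 * δ ^ 2 * (2 * E) * (1 / 2) ^ i +
              4 * δ ^ 2 * (8 * C / h₀) * (if (2 : ℝ) ^ i ≤ h₀ then 0 else (1 / 2) ^ i) := by
              split_ifs
              · rw [← h1]; ring
              · rw [← h1]; ring
    _ = 4 * δ ^ 2 * (2 * E) * ∑ i ∈ range (k + 1), (1 / 2 : ℝ) ^ i +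
        4 * δ ^ 2 * (8 * C / h₀) *
          ∑ i ∈ range (k + 1), (if (2 : ℝ) ^ i ≤ h₀ then (0 : ℝ) else (1 / 2) ^ i) := by
        rw [Finset.sum_add_distrib, ← Finset.mul_sum, ← Finset.mul_sum]
    _ ≤ 4 * δ ^ 2 * (2 * E) * 2 + 4 * δ ^ 2 * (8 * C / h₀) * (2 / h₀) := by
        apply add_le_add
        · exact mul_le_mul_of_nonneg_left (pl_geom _) (by positivity)
        · exact mul_le_mul_of_nonneg_left (pl_tail h₀ hh1 _) (by positivity)
    _ ≤ (16 + 64 * C) * δ ^ 2 * (E + 1 / h₀ ^ 2) := by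
        have h1 : 4 * δ ^ 2 * (8 * C / h₀) * (2 / h₀) = 64 * C * δ ^ 2 * (1 / h₀ ^ 2) := by
          field_simp
          ring
        rw [h1]
        have h2 : 0 ≤ δ ^ 2 * (1 / h₀ ^ 2) := by positivity
        have h3 : 0 ≤ C * (δ ^ 2 * E) := by positivity
        nlinarith

theorem st_PL (hMV : ST_MV) (hPLA : ST_PLA) : ST_PL := by
  obtain ⟨C, hC, hmv⟩ := hMV
  obtain ⟨C', hC', hpla⟩ := hPLA
  refine ⟨2 + C' * (16 + 64 * C), by positivity, ?_⟩
  intro X h E B a ha hB hBh hhX hE hE1 hyp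
  have hh1 : 1 ≤ h := hB.trans hBh
  have hX1 : 1 ≤ X := hh1.trans hhX
  have hh0 : 0 < h := by linarith
  have hX0 : 0 < X := by linarith
  have hmean := pl_mean hC hmv X h E B a ha hB hBh hhX hE hyp
  have hδ0 : 0 < h / X := by positivity
  have hδ1 : h / X ≤ 1 := (div_le_one hX0).2 hhX
  have h1 := hpla (IocN X (2 * X)) (h / X) a (fun n hn => (pl_mem hX1 hn).2.2) hδ0 hδ1
  set δ : ℝ := h / X with hδ
  set G : ℝ → ℂ := fun u => ∑ n ∈ (IocN X (2 * X)).filter
      (fun n : ℕ => u < Real.log n ∧ Real.log n ≤ u + δ), a n with hG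
  set I : Set ℝ := Set.Icc (Real.log X - δ) (Real.log (2 * X)) with hI
  have hGzero : ∀ u, u ∉ I → G u = 0 := by
    intro u hu
    apply Finset.sum_eq_zero
    intro n hn
    exfalso
    rw [Finset.mem_filter] at hn
    obtain ⟨hn1, hn2, hn3⟩ := hn
    obtain ⟨hn4, hn5, hn6⟩ := pl_mem hX1 hn1
    apply hu
    have h2 : Real.log X ≤ Real.log n := Real.log_le_log hX0 hn4.le
    have h3 : Real.log n ≤ Real.log (2 * X) := Real.log_le_log (by linarith) hn5
    exact ⟨by linarith, by linarith⟩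
  have hGm : Measurable G := by
    have : G = fun u => ∑ n ∈ IocN X (2 * X),
        (Set.Ico (Real.log n - δ) (Real.log n)).indicator (fun _ => a n) u := by
      funext u
      rw [hG]
      show ∑ n ∈ (IocN X (2 * X)).filter
        (fun n : ℕ => u < Real.log n ∧ Real.log n ≤ u + δ), a n = _
      rw [Finset.sum_filter]
      apply Finset.sum_congr rfl
      intro n _
      rw [Set.indicator_apply]
      have : (u < Real.log n ∧ Real.log n ≤ u + δ) ↔
          u ∈ Set.Ico (Real.log n - δ) (Real.log n) := by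
        rw [Set.mem_Ico]
        constructor
        · rintro ⟨h1, h2⟩; exact ⟨by linarith, h1⟩
        · rintro ⟨h1, h2⟩; exact ⟨h2, by linarith⟩
      simp only [this]
    rw [this]
    apply Finset.measurable_sum
    intro n _
    exact measurable_const.indicator measurableSet_Ico
  have hGb : ∀ u, ‖G u‖ ≤ ∑ n ∈ IocN X (2 * X), ‖a n‖ := by
    intro u
    refine (norm_sum_le _ _).trans ?_
    apply Finset.sum_le_sum_of_subset_of_nonneg (Finset.filter_subset _ _)
    intro n _ _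
    exact norm_nonneg _
  have hFint : Integrable (fun u => ‖G u‖ ^ 2 * Real.exp (-(2 * u))) := by
    have h2 : Integrable (I.indicator (fun _ : ℝ => (∑ n ∈ IocN X (2 * X), ‖a n‖) ^ 2 *
        Real.exp (-(2 * (Real.log X - δ))))) := by
      rw [integrable_indicator_iff measurableSet_Icc]
      exact integrableOn_const (by rw [Real.volume_Icc]; exact ENNReal.ofReal_ne_top)
    apply h2.mono' ((hGm.norm.pow_const 2).mul (by fun_prop)).aestronglyMeasurable
    filter_upwards with u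
    show ‖‖G u‖ ^ 2 * Real.exp (-(2 * u))‖ ≤ _
    by_cases hu : u ∈ I
    · rw [Set.indicator_of_mem hu, Real.norm_of_nonneg (by positivity)]
      apply mul_le_mul _ _ (Real.exp_pos _).le (by positivity)
      · exact pow_le_pow_left₀ (norm_nonneg _) (hGb u) 2
      · apply Real.exp_le_exp.2
        have := hu.1
        linarith
    · rw [Set.indicator_of_notMem hu, hGzero u hu, norm_zero, zero_pow two_ne_zero, zero_mul,
        norm_zero]
  set lm : ℝ := δ * (Real.sqrt E + 1 / h) with hlm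
  have hlm0 : 0 < lm := by
    apply mul_pos hδ0
    have : 0 ≤ Real.sqrt E := Real.sqrt_nonneg _
    positivity
  have hK : ∫ u : ℝ, ‖G u‖ ^ 2 * Real.exp (-(2 * u)) ≤ C' * (16 + 64 * C) * lm ^ 2 := by
    refine h1.trans ?_
    calc C' * ∫ t : ℝ, ‖DP (IocN X (2 * X)) a t‖ ^ 2 * min (δ ^ 2) (1 / (1 + t ^ 2))
        ≤ C' * ((16 + 64 * C) * δ ^ 2 * (E + 1 / h ^ 2)) :=
          mul_le_mul_of_nonneg_left hmean hC'.le
      _ = C' * (16 + 64 * C) * (δ ^ 2 * (E + 1 / h ^ 2)) := by ring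
      _ ≤ C' * (16 + 64 * C) * lm ^ 2 := by
          apply mul_le_mul_of_nonneg_left _ (by positivity)
          rw [hlm, mul_pow]
          apply mul_le_mul_of_nonneg_left _ (by positivity)
          have h2 : Real.sqrt E ^ 2 = E := Real.sq_sqrt hE
          have h3 : 0 ≤ Real.sqrt E * (1 / h) := by
            have : 0 ≤ Real.sqrt E := Real.sqrt_nonneg _
            positivity
          have h4 : (1 / h) ^ 2 = 1 / h ^ 2 := by rw [one_div_pow]
          nlinarith
  have hmaj : Integrable (fun u => I.indicator (fun _ : ℝ => X * lm) u +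
      X / lm * (‖G u‖ ^ 2 * Real.exp (-(2 * u)))) := by
    apply Integrable.add _ (hFint.const_mul _)
    rw [integrable_indicator_iff measurableSet_Icc]
    exact integrableOn_const (by rw [Real.volume_Icc]; exact ENNReal.ofReal_ne_top)
  have hle : ∫ u : ℝ, ‖G u‖ ≤ ∫ u : ℝ, (I.indicator (fun _ : ℝ => X * lm) u +
      X / lm * (‖G u‖ ^ 2 * Real.exp (-(2 * u)))) := by
    apply integral_mono_of_nonneg _ hmaj
    · filter_upwards with u
      by_cases hu : u ∈ I
      · rw [Set.indicator_of_mem hu]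
        have h2 : Real.exp u ≤ 2 * X := by
          calc Real.exp u ≤ Real.exp (Real.log (2 * X)) := Real.exp_le_exp.2 hu.2
            _ = 2 * X := Real.exp_log (by linarith)
        set v : ℝ := ‖G u‖ * Real.exp (-u) with hv
        have hv0 : 0 ≤ v := by positivity
        have h3 : ‖G u‖ = Real.exp u * v := by
          rw [hv, mul_left_comm, ← Real.exp_add, add_neg_cancel, Real.exp_zero, mul_one]
        have h4 : ‖G u‖ ^ 2 * Real.exp (-(2 * u)) = v ^ 2 := by
          rw [hv, mul_pow, ← Real.exp_nat_mul]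
          congr 2
          push_cast
          ring
        show ‖G u‖ ≤ X * lm + X / lm * (‖G u‖ ^ 2 * Real.exp (-(2 * u)))
        rw [h4, h3]
        calc Real.exp u * v ≤ 2 * X * v := mul_le_mul_of_nonneg_right h2 hv0
          _ ≤ X * lm + X / lm * v ^ 2 := by
              have h5 : X * lm + X / lm * v ^ 2 - 2 * X * v = X / lm * (lm - v) ^ 2 := by
                field_simp
                ring
              have h6 : 0 ≤ X / lm * (lm - v) ^ 2 := by positivity
              linarith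
      · rw [Set.indicator_of_notMem hu, hGzero u hu]
        simp
    · filter_upwards with u
      exact norm_nonneg _
  refine hle.trans ?_
  rw [integral_add _ (hFint.const_mul _), integral_const_mul,
    integral_indicator measurableSet_Icc, setIntegral_const]
  · have hvol : volume.real I ≤ 2 := by
      rw [hI, Real.volume_real_Icc, Real.log_mul (by norm_num) hX0.ne']
      have h2 : Real.log 2 ≤ 1 := by
        have := Real.log_two_lt_d9
        linarith
      apply max_le _ (by norm_num)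
      linarith
    have h5 : X / lm * ∫ u : ℝ, ‖G u‖ ^ 2 * Real.exp (-(2 * u)) ≤
        C' * (16 + 64 * C) * (X * lm) := by
      calc X / lm * ∫ u : ℝ, ‖G u‖ ^ 2 * Real.exp (-(2 * u))
          ≤ X / lm * (C' * (16 + 64 * C) * lm ^ 2) :=
            mul_le_mul_of_nonneg_left hK (by positivity)
        _ = C' * (16 + 64 * C) * (X * lm) := by
            field_simp
    have h6 : volume.real I • (X * lm) ≤ 2 * (X * lm) := by
      rw [smul_eq_mul]
      exact mul_le_mul_of_nonneg_right hvol (by positivity)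
    have h7 : X * lm = h * (Real.sqrt E + 1 / h) := by
      rw [hlm, hδ]
      field_simp
    calc volume.real I • (X * lm) + X / lm * ∫ u : ℝ, ‖G u‖ ^ 2 * Real.exp (-(2 * u))
        ≤ 2 * (X * lm) + C' * (16 + 64 * C) * (X * lm) := add_le_add h6 h5
      _ = (2 + C' * (16 + 64 * C)) * h * (Real.sqrt E + 1 / h) := by
          rw [h7]
          ring
  · rw [integrable_indicator_iff measurableSet_Icc]
    exact integrableOn_const (by rw [Real.volume_Icc]; exact ENNReal.ofReal_ne_top)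

end Pool.Agent.Helper40.MR
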